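import Pool.Agent.Helper46.T5.Stmts

set_option autoImplicit false

/-! MP_2f9829_co, module SPAN: the rotations span the 3x3 matrices. -/

namespace Pool.Agent.Helper61.T5

open Pool.Agent.Helper46.T5

theorem so3_lit (a b c d e f g h i : ℝ)
    (h1 : a * a + b * b + c * c = 1) (h2 : d * d + e * e + f * f = 1)
    (h3 : g * g + h * h + i * i = 1) (h4 : a * d + b * e + c * f = 0)
    (h5 : a * g + b * h + c * i = 0) (h6 : d * g + e * h + f * i = 0)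
    (h7 : a * e * i - a * f * h - b * d * i + b * f * g + c * d * h - c * e * g = 1) :
    SO3 !![a, b, c; d, e, f; g, h, i] := by
  constructor
  · ext x y
    fin_cases x <;> fin_cases y <;>
      simp [Matrix.mul_apply, Fin.sum_univ_three] <;> linarith
  · rw [Matrix.det_fin_three]
    simp
    linarith

theorem unit_span (i j : Fin 3) : ∃ P Q : M3, SO3 P ∧ SO3 Q ∧
    ∀ x y, (if x = i ∧ y = j then (1 : ℝ) else 0) = 1 / 2 * (P x y + Q x y) := by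
  fin_cases i <;> fin_cases j
  · refine ⟨!![1, 0, 0; 0, 1, 0; 0, 0, 1], !![1, 0, 0; 0, -1, 0; 0, 0, -1],
      so3_lit _ _ _ _ _ _ _ _ _ ?_ ?_ ?_ ?_ ?_ ?_ ?_,
      so3_lit _ _ _ _ _ _ _ _ _ ?_ ?_ ?_ ?_ ?_ ?_ ?_, ?_⟩
    all_goals norm_num
    intro x y
    fin_cases x <;> fin_cases y <;> norm_num
  · refine ⟨!![0, 1, 0; 1, 0, 0; 0, 0, -1], !![0, 1, 0; -1, 0, 0; 0, 0, 1],
      so3_lit _ _ _ _ _ _ _ _ _ ?_ ?_ ?_ ?_ ?_ ?_ ?_,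
      so3_lit _ _ _ _ _ _ _ _ _ ?_ ?_ ?_ ?_ ?_ ?_ ?_, ?_⟩
    all_goals norm_num
    intro x y
    fin_cases x <;> fin_cases y <;> norm_num
  · refine ⟨!![0, 0, 1; 0, -1, 0; 1, 0, 0], !![0, 0, 1; 0, 1, 0; -1, 0, 0],
      so3_lit _ _ _ _ _ _ _ _ _ ?_ ?_ ?_ ?_ ?_ ?_ ?_,
      so3_lit _ _ _ _ _ _ _ _ _ ?_ ?_ ?_ ?_ ?_ ?_ ?_, ?_⟩
    all_goals norm_num
    intro x y
    fin_cases x <;> fin_cases y <;> norm_num
  · refine ⟨!![0, 1, 0; 1, 0, 0; 0, 0, -1], !![0, -1, 0; 1, 0, 0; 0, 0, 1],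
      so3_lit _ _ _ _ _ _ _ _ _ ?_ ?_ ?_ ?_ ?_ ?_ ?_,
      so3_lit _ _ _ _ _ _ _ _ _ ?_ ?_ ?_ ?_ ?_ ?_ ?_, ?_⟩
    all_goals norm_num
    intro x y
    fin_cases x <;> fin_cases y <;> norm_num
  · refine ⟨!![1, 0, 0; 0, 1, 0; 0, 0, 1], !![-1, 0, 0; 0, 1, 0; 0, 0, -1],
      so3_lit _ _ _ _ _ _ _ _ _ ?_ ?_ ?_ ?_ ?_ ?_ ?_,
      so3_lit _ _ _ _ _ _ _ _ _ ?_ ?_ ?_ ?_ ?_ ?_ ?_, ?_⟩
    all_goals norm_num
    intro x y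
    fin_cases x <;> fin_cases y <;> norm_num
  · refine ⟨!![-1, 0, 0; 0, 0, 1; 0, 1, 0], !![1, 0, 0; 0, 0, 1; 0, -1, 0],
      so3_lit _ _ _ _ _ _ _ _ _ ?_ ?_ ?_ ?_ ?_ ?_ ?_,
      so3_lit _ _ _ _ _ _ _ _ _ ?_ ?_ ?_ ?_ ?_ ?_ ?_, ?_⟩
    all_goals norm_num
    intro x y
    fin_cases x <;> fin_cases y <;> norm_num
  · refine ⟨!![0, 0, 1; 0, -1, 0; 1, 0, 0], !![0, 0, -1; 0, 1, 0; 1, 0, 0],
      so3_lit _ _ _ _ _ _ _ _ _ ?_ ?_ ?_ ?_ ?_ ?_ ?_,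
      so3_lit _ _ _ _ _ _ _ _ _ ?_ ?_ ?_ ?_ ?_ ?_ ?_, ?_⟩
    all_goals norm_num
    intro x y
    fin_cases x <;> fin_cases y <;> norm_num
  · refine ⟨!![-1, 0, 0; 0, 0, 1; 0, 1, 0], !![1, 0, 0; 0, 0, -1; 0, 1, 0],
      so3_lit _ _ _ _ _ _ _ _ _ ?_ ?_ ?_ ?_ ?_ ?_ ?_,
      so3_lit _ _ _ _ _ _ _ _ _ ?_ ?_ ?_ ?_ ?_ ?_ ?_, ?_⟩
    all_goals norm_num
    intro x y
    fin_cases x <;> fin_cases y <;> norm_num
  · refine ⟨!![1, 0, 0; 0, 1, 0; 0, 0, 1], !![-1, 0, 0; 0, -1, 0; 0, 0, 1],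
      so3_lit _ _ _ _ _ _ _ _ _ ?_ ?_ ?_ ?_ ?_ ?_ ?_,
      so3_lit _ _ _ _ _ _ _ _ _ ?_ ?_ ?_ ?_ ?_ ?_ ?_, ?_⟩
    all_goals norm_num
    intro x y
    fin_cases x <;> fin_cases y <;> norm_num

theorem st_SPAN : ST_SPAN := by
  rw [ST_SPAN, eq_top_iff]
  intro M _
  have hM : M = ∑ i : Fin 3, ∑ j : Fin 3, M i j • Matrix.single i j (1 : ℝ) := by
    conv_lhs => rw [Matrix.matrix_eq_sum_single M]
    simp [Matrix.smul_single]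
  rw [hM]
  refine Submodule.sum_mem _ fun i _ => Submodule.sum_mem _ fun j _ => Submodule.smul_mem _ _ ?_
  obtain ⟨P, Q, hP, hQ, h⟩ := unit_span i j
  have : Matrix.single i j (1 : ℝ) = (1 / 2 : ℝ) • (P + Q) := by
    apply Matrix.ext
    intro x y
    rw [Matrix.smul_apply, Matrix.add_apply, smul_eq_mul, ← h x y, Matrix.single_apply]
    simp only [eq_comm]
  rw [this]
  exact Submodule.smul_mem _ _ (Submodule.add_mem _ (Submodule.subset_span hP)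
    (Submodule.subset_span hQ))

end Pool.Agent.Helper61.T5
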